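import Pool.Agent.Lib.MP_6bc78b_nt.MS.P5.HM.MomB
import Pool.Agent.Lib.MP_6bc78b_nt.MS.P4.H93.Fin2

/-! Project MS, Part V, chapter HM: higher Montgomery inequalities. -/

set_option autoImplicit false

open Complex Filter Topology MeasureTheory ArithmeticFunction

namespace Pool.Agent.Lib.MP_6bc78b_nt.MS.P5.HM

open Pool.Agent.Lib.MP_6bc78b_nt
open Pool.Agent.Lib.MP_6bc78b_nt.MS Pool.Agent.Lib.MP_6bc78b_nt.MS.P1
open Pool.Agent.Lib.MP_6bc78b_nt.MS.P5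

/-- `∑ m(γ) ((m(γ) - k)_+)^(2k)` over the distinct zeros `γ` of `Z` in `(0,T]`. -/
noncomputable def HMsum (k : ℕ) (T : ℝ) : ℝ :=
  ∑ᶠ γ ∈ {γ : ℝ | 0 < γ ∧ γ ≤ T ∧ hardyZ γ = 0},
    (zeroMult γ : ℝ) * max ((zeroMult γ : ℝ) - k) 0 ^ (2 * k)

/-- The weight. -/
noncomputable def bh (k : ℕ) (γ : ℝ) : ℝ := (mz γ : ℝ) * max ((mz γ : ℝ) - k) 0 ^ (2 * k)

lemma bh_nonneg (k : ℕ) (γ : ℝ) : 0 ≤ bh k γ := by
  unfold bh
  have : 0 ≤ max ((mz γ : ℝ) - k) 0 := le_max_right _ _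
  positivity

/-- Pointwise: at a zero of multiplicity `m`. -/
lemma point (k m : ℕ) (e : ℝ) (B : ℂ) (hk : 1 ≤ k) (he0 : 0 < e) (he : e < 1 / 4)
    (hB : B.re ≤ ((k : ℝ) + e) / 2 - (m : ℝ) / 2 + e / 2) :
    (1 - 2 * e) ^ (2 * k) * max ((m : ℝ) - k) 0 ^ (2 * k) ≤ 4 ^ k * ‖B‖ ^ (2 * k) := by
  rcases le_or_gt m k with h | h
  · have h1 : (m : ℝ) - k ≤ 0 := by
      have : (m : ℝ) ≤ k := by exact_mod_cast h
      linarith
    rw [max_eq_right h1, zero_pow (by omega), mul_zero]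
    positivity
  · have h1 : (1 : ℝ) ≤ (m : ℝ) - k := by
      have : ((k + 1 : ℕ) : ℝ) ≤ m := by exact_mod_cast h
      push_cast at this
      linarith
    rw [max_eq_left (by linarith), ← mul_pow]
    have h2 : (1 - 2 * e) * ((m : ℝ) - k) ≤ 2 * ‖B‖ := by
      have h3 : -B.re ≤ ‖B‖ := (neg_le_abs _).trans (Complex.abs_re_le_norm B)
      nlinarith
    have h3 : 0 ≤ (1 - 2 * e) * ((m : ℝ) - k) := by
      apply mul_nonneg <;> linarith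
    calc ((1 - 2 * e) * ((m : ℝ) - k)) ^ (2 * k) ≤ (2 * ‖B‖) ^ (2 * k) :=
          pow_le_pow_left₀ h3 h2 _
      _ = 4 ^ k * ‖B‖ ^ (2 * k) := by
          rw [mul_pow, pow_mul]
          norm_num

/-- HMW: the weighted inequality. -/
theorem hmw (hz : ZfacStatement) (hZ : ZduStatement) (hLS : LSerStatement) (hP : PpwStatement)
    (hPr : PrimeSumStatement) (hPT : PTStatement) (k : ℕ) (hk : 1 ≤ k) (δ : ℝ) (hδ : 0 < δ) :
    ∀ᶠ T : ℝ in atTop, ∑ᶠ γ ∈ zset T, bh k γ * MS.wt T γ ≤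
      ((k.factorial : ℝ) / 3 ^ k + δ) * (cG T * Real.log T) := by
  have hk1 : (1 : ℝ) ≤ k := by exact_mod_cast hk
  have h3k : (4 : ℝ) ^ k * ((k.factorial : ℝ) / 12 ^ k) = (k.factorial : ℝ) / 3 ^ k := by
    have : (12 : ℝ) ^ k = 4 ^ k * 3 ^ k := by rw [← mul_pow]; norm_num
    rw [this]
    field_simp
  -- the choice of e
  obtain ⟨e, he0, he1, he⟩ : ∃ e : ℝ, 0 < e ∧ e < 1 / 4 ∧
      ((1 - 2 * e) ^ (2 * k))⁻¹ * (4 ^ k * ((k.factorial : ℝ) / 12 ^ k + e)) <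
        (k.factorial : ℝ) / 3 ^ k + δ := by
    have hc : Tendsto (fun e : ℝ => ((1 - 2 * e) ^ (2 * k))⁻¹ *
        (4 ^ k * ((k.factorial : ℝ) / 12 ^ k + e))) (𝓝[>] 0)
        (𝓝 (((1 - 2 * 0) ^ (2 * k))⁻¹ * (4 ^ k * ((k.factorial : ℝ) / 12 ^ k + 0)))) := by
      apply Tendsto.mono_left _ nhdsWithin_le_nhds
      apply ContinuousAt.tendsto
      apply ContinuousAt.mul
      · apply ContinuousAt.inv₀
        · fun_prop
        · simp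
      · fun_prop
    have h1 : ((1 - 2 * 0 : ℝ) ^ (2 * k))⁻¹ * (4 ^ k * ((k.factorial : ℝ) / 12 ^ k + 0)) <
        (k.factorial : ℝ) / 3 ^ k + δ := by
      rw [mul_zero, sub_zero, one_pow, inv_one, one_mul, add_zero, h3k]
      linarith
    have h2 : ∀ᶠ e : ℝ in 𝓝[>] 0, e < 1 / 4 :=
      nhdsWithin_le_nhds (gt_mem_nhds (by norm_num))
    obtain ⟨e, ⟨h3, h4⟩, h5⟩ := ((hc.eventually (gt_mem_nhds h1)).and h2).and
      self_mem_nhdsWithin |>.exists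
    exact ⟨e, h5, h4, h3⟩
  set lam : ℝ := 1 / (k + e) with hlam
  have hke : 0 < (k : ℝ) + e := by linarith
  have hlam0 : 0 < lam := by positivity
  have hkl : (k : ℝ) * lam < 1 := by
    rw [hlam, mul_one_div, div_lt_one hke]
    linarith
  have hlam1 : lam < 1 := by
    rw [hlam, div_lt_one hke]
    linarith
  filter_upwards [hPT lam (e / 2) hlam0 hlam1 (by linarith),
    momB hz hZ hLS hP hPr lam k hlam0 hk hkl e he0, eventually_gt_atTop (1 : ℝ)]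
    with T hT1 hT2 hT3
  have hf : (zset T).Finite := hz.2.2.2.2.2.2 T
  have hcG := P4.H93.cG_log_pos hT3
  rw [finsum_mem_eq_finite_toFinset_sum _ hf] at hT2 ⊢
  have hpos : 0 < (1 - 2 * e) ^ (2 * k) := by
    apply pow_pos
    linarith
  have h1 : ∀ γ ∈ hf.toFinset, bh k γ * MS.wt T γ ≤ ((1 - 2 * e) ^ (2 * k))⁻¹ * 4 ^ k *
      ((mz γ : ℝ) * MS.wt T γ * ‖BB lam T (1 / 2 + γ * I)‖ ^ (2 * k)) := by
    intro γ hγ
    have hγ' : γ ∈ zset T := hf.mem_toFinset.1 hγ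
    have h2 := hT1 γ hγ'
    have h3 : 1 / (2 * lam) = ((k : ℝ) + e) / 2 := by
      rw [hlam]
      field_simp
    rw [h3] at h2
    have h4 := point k (mz γ) e _ hk he0 he1 h2
    have h5 : max ((mz γ : ℝ) - k) 0 ^ (2 * k) ≤ ((1 - 2 * e) ^ (2 * k))⁻¹ *
        (4 ^ k * ‖BB lam T (1 / 2 + γ * I)‖ ^ (2 * k)) := by
      rw [inv_mul_eq_div, le_div_iff₀ hpos]
      linarith
    have h6 : 0 ≤ (mz γ : ℝ) * MS.wt T γ := mul_nonneg (Nat.cast_nonneg _) (Real.exp_pos _).le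
    unfold bh
    calc (mz γ : ℝ) * max ((mz γ : ℝ) - k) 0 ^ (2 * k) * MS.wt T γ
        = ((mz γ : ℝ) * MS.wt T γ) * max ((mz γ : ℝ) - k) 0 ^ (2 * k) := by ring
      _ ≤ ((mz γ : ℝ) * MS.wt T γ) * (((1 - 2 * e) ^ (2 * k))⁻¹ *
        (4 ^ k * ‖BB lam T (1 / 2 + γ * I)‖ ^ (2 * k))) := mul_le_mul_of_nonneg_left h5 h6
      _ = _ := by ring
  refine (Finset.sum_le_sum h1).trans ?_
  rw [← Finset.mul_sum]
  have h2 : 0 ≤ ((1 - 2 * e) ^ (2 * k))⁻¹ * 4 ^ k := by positivity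
  calc _ ≤ ((1 - 2 * e) ^ (2 * k))⁻¹ * 4 ^ k *
        (((k.factorial : ℝ) / 12 ^ k + e) * (cG T * Real.log T)) :=
        mul_le_mul_of_nonneg_left hT2 h2
    _ = (((1 - 2 * e) ^ (2 * k))⁻¹ * (4 ^ k * ((k.factorial : ℝ) / 12 ^ k + e))) *
        (cG T * Real.log T) := by ring
    _ ≤ _ := mul_le_mul_of_nonneg_right he.le hcG.le

lemma Nb_bh (hZ : ZfacStatement) (k : ℕ) (X : ℝ) : Nb (bh k) X = HMsum k X := by
  obtain ⟨z1, z2, -⟩ := hZ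
  rw [Nb, HMsum, finsum_mem_def, finsum_mem_def]
  refine finsum_congr fun γ => ?_
  by_cases h : 0 < γ ∧ γ ≤ X ∧ riemannZeta (1 / 2 + γ * I) = 0
  · rw [Set.indicator_of_mem (show γ ∈ {γ : ℝ | 0 < γ ∧ γ ≤ X ∧ riemannZeta (1 / 2 + γ * I) = 0}
      from h), Set.indicator_of_mem (show γ ∈ {γ : ℝ | 0 < γ ∧ γ ≤ X ∧ hardyZ γ = 0} from
      ⟨h.1, h.2.1, (z1 γ).2 h.2.2⟩), z2 γ h.2.2]
    rfl
  · rw [Set.indicator_of_notMem (show γ ∉ {γ : ℝ | 0 < γ ∧ γ ≤ X ∧ riemannZeta (1 / 2 + γ * I) = 0}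
      from h), Set.indicator_of_notMem (show γ ∉ {γ : ℝ | 0 < γ ∧ γ ≤ X ∧ hardyZ γ = 0} from
      fun h' => h ⟨h'.1, h'.2.1, (z1 γ).1 h'.2.2⟩)]

/-- HMC: the inequality for the counting functions. -/
theorem hmc (hz : ZfacStatement) (hZ : ZduStatement) (hLS : LSerStatement) (hP : PpwStatement)
    (hPr : PrimeSumStatement) (hPT : PTStatement) (hA : AvgStatement) (k : ℕ) (hk : 1 ≤ k)
    (ε : ℝ) (hε : 0 < ε) :
    ∃ T0 : ℝ, ∀ T : ℝ, T0 ≤ T → HMsum k T ≤ ((k.factorial : ℝ) / 3 ^ k + ε) * NZ T := by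
  have h0 : (0 : ℝ) ≤ (k.factorial : ℝ) / 3 ^ k := by positivity
  have h1 := hA (bh k) (bh_nonneg k) ((k.factorial : ℝ) / 3 ^ k + ε / 2)
    ((k.factorial : ℝ) / 3 ^ k + ε) (by linarith) (by linarith)
    (hmw hz hZ hLS hP hPr hPT k hk (ε / 2) (by linarith))
  obtain ⟨T0, hT0⟩ := Filter.eventually_atTop.1 h1
  refine ⟨T0, fun T hT => ?_⟩
  have h2 := hT0 T hT
  rwa [Nb_bh hz, P4.H93.Nb_mz hz] at h2

/-- From `HMsum` to the number of zeros of multiplicity at least `j`. -/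
lemma NZm_le (hz : ZfacStatement) (j k : ℕ) (hkj : k < j) (T : ℝ) :
    ((j : ℝ) - k) ^ (2 * k) * NZm j T ≤ HMsum k T := by
  rw [← P4.H93.Nb_bk hz, ← Nb_bh hz]
  have hfin : {γ : ℝ | 0 < γ ∧ γ ≤ T ∧ riemannZeta (1 / 2 + γ * I) = 0}.Finite :=
    hz.2.2.2.2.2.1 T
  unfold Nb
  rw [finsum_mem_eq_finite_toFinset_sum _ hfin, finsum_mem_eq_finite_toFinset_sum _ hfin,
    Finset.mul_sum]
  refine Finset.sum_le_sum fun γ _ => ?_
  have hjk : (0 : ℝ) < (j : ℝ) - k := by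
    have : (k : ℝ) < j := by exact_mod_cast hkj
    linarith
  unfold P4.H93.bk bh
  split_ifs with h
  · have h1 : (j : ℝ) ≤ mz γ := by exact_mod_cast h.2
    have h2 : (j : ℝ) - k ≤ max ((mz γ : ℝ) - k) 0 := le_max_of_le_left (by linarith)
    have h3 : ((j : ℝ) - k) ^ (2 * k) ≤ max ((mz γ : ℝ) - k) 0 ^ (2 * k) :=
      pow_le_pow_left₀ hjk.le h2 _
    have h4 : (0 : ℝ) ≤ mz γ := Nat.cast_nonneg _
    nlinarith
  · rw [mul_zero]
    have : 0 ≤ max ((mz γ : ℝ) - k) 0 := le_max_right _ _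
    positivity

lemma NZ_nonneg (hz : ZfacStatement) (T : ℝ) : 0 ≤ NZ T := by
  rw [← P4.H93.Nb_mz hz]
  unfold Nb
  exact finsum_nonneg fun γ => finsum_nonneg fun _ => Nat.cast_nonneg _

/-- HMJ: zeros of multiplicity at least `j`. -/
theorem hmj (hz : ZfacStatement) (hZ : ZduStatement) (hLS : LSerStatement) (hP : PpwStatement)
    (hPr : PrimeSumStatement) (hPT : PTStatement) (hA : AvgStatement) (j k : ℕ) (hk : 1 ≤ k)
    (hkj : k < j) (ε : ℝ) (hε : 0 < ε) :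
    ∃ T0 : ℝ, ∀ T : ℝ, T0 ≤ T →
      NZm j T ≤ ((k.factorial : ℝ) / (3 ^ k * ((j : ℝ) - k) ^ (2 * k)) + ε) * NZ T := by
  obtain ⟨T0, h⟩ := hmc hz hZ hLS hP hPr hPT hA k hk ε hε
  refine ⟨T0, fun T hT => ?_⟩
  have h1 := (NZm_le hz j k hkj T).trans (h T hT)
  have h2 : (1 : ℝ) ≤ (j : ℝ) - k := by
    have : ((k + 1 : ℕ) : ℝ) ≤ j := by exact_mod_cast hkj
    push_cast at this
    linarith
  have h3 : (1 : ℝ) ≤ ((j : ℝ) - k) ^ (2 * k) := one_le_pow₀ h2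
  have h4 := NZ_nonneg hz T
  set P : ℝ := ((j : ℝ) - k) ^ (2 * k) with hP'
  have hP0 : 0 < P := by linarith
  have h5 : NZm j T ≤ ((k.factorial : ℝ) / 3 ^ k + ε) * NZ T / P := by
    rw [le_div_iff₀ hP0]
    linarith
  refine h5.trans ?_
  have h6 : ((k.factorial : ℝ) / 3 ^ k + ε) * NZ T / P =
      ((k.factorial : ℝ) / (3 ^ k * P) + ε / P) * NZ T := by
    field_simp
  rw [h6]
  have h7 : ε / P ≤ ε := div_le_self hε.le h3
  gcongr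

end Pool.Agent.Lib.MP_6bc78b_nt.MS.P5.HM
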