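import Pool.Agent.Lib.MP_6bc78b_nt.MS.P5.Final
import Pool.Agent.Lib.MP_6bc78b_nt.MS.P5.HM.Hmc
import Pool.Agent.Lib.MP_6bc78b_nt.MS.P4.H75.Avg
import Pool.Agent.Lib.MP_6bc78b_nt.MS.P1.PRIM
import Pool.Agent.Lib.MP_6bc78b_nt.MS.P1.PT

/-! Project MS, Part V, chapter HM: the higher Montgomery inequalities under the Riemann
hypothesis, without further hypotheses. -/

set_option autoImplicit false

namespace Pool.Agent.Lib.MP_6bc78b_nt.MS.P5.HM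

open Pool.Agent.Lib.MP_6bc78b_nt
open Pool.Agent.Lib.MP_6bc78b_nt.MS Pool.Agent.Lib.MP_6bc78b_nt.MS.P1

/-- ZDU under RH. -/
theorem zduF (hRH : RiemannHypothesis) : ZduStatement :=
  zdu (zsfF hRH) (P1.tail GAU.gau DDF.ddf) (P1.edg1 GAU.gau SWAP.swap DDF.ddf) CHO.cho
    LSER.lser H23.mvf (H51.mov CHI.chi CHO.cho GAU.gau DDF.ddf) CHI.chi DDF.ddf

/-- AVG under RH. -/
theorem avgF (hRH : RiemannHypothesis) : AvgStatement :=
  P4.H75.avg (P4.H75.av P4.H05.ker P4.H30.zfac) (nasF hRH)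

/-- The higher Montgomery inequalities. -/
theorem higher_montgomery (hRH : RiemannHypothesis) (k : ℕ) (hk : 1 ≤ k) (ε : ℝ) (hε : 0 < ε) :
    ∃ T0 : ℝ, ∀ T : ℝ, T0 ≤ T → HMsum k T ≤ ((k.factorial : ℝ) / 3 ^ k + ε) * NZ T :=
  hmc P4.H30.zfac (zduF hRH) LSER.lser H22.ppw PRIM.prim (P1.PT.pt hRH) (avgF hRH) k hk ε hε

/-- Zeros of multiplicity at least `j`. -/
theorem high_multiplicity (hRH : RiemannHypothesis) (j k : ℕ) (hk : 1 ≤ k) (hkj : k < j)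
    (ε : ℝ) (hε : 0 < ε) : ∃ T0 : ℝ, ∀ T : ℝ, T0 ≤ T →
      NZm j T ≤ ((k.factorial : ℝ) / (3 ^ k * ((j : ℝ) - k) ^ (2 * k)) + ε) * NZ T :=
  hmj P4.H30.zfac (zduF hRH) LSER.lser H22.ppw PRIM.prim (P1.PT.pt hRH) (avgF hRH) j k hk hkj ε hε

end Pool.Agent.Lib.MP_6bc78b_nt.MS.P5.HM
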