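import Pool.Agent.Lib.MP_6bc78b_nt.MS.P5.HM.Split
import Pool.Agent.Lib.MP_6bc78b_nt.MS.P4.H70.QSA
import Pool.Agent.Lib.MP_6bc78b_nt.MS.P1.ZN

/-! Project MS, Part V, chapter HM: the sharp moments of `B` over the zeros. -/

set_option autoImplicit false

open Complex Filter Topology MeasureTheory ArithmeticFunction

namespace Pool.Agent.Lib.MP_6bc78b_nt.MS.P5.HM

open Pool.Agent.Lib.MP_6bc78b_nt.MS Pool.Agent.Lib.MP_6bc78b_nt.MS.P1
open Pool.Agent.Lib.MP_6bc78b_nt.MS.P5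

/-- The form of the mean square bound that is used (ZDU). -/
def ZduStatement : Prop := ∀ δ : ℝ, 0 < δ → δ < 1 → ∃ T0 : ℝ, 3 < T0 ∧ ∀ T : ℝ, T0 ≤ T →
  ∀ d : ArithmeticFunction ℝ, (∀ n, 0 ≤ d n ∧ d n ≤ T) →
    (∀ n, ⌊T ^ (1 - δ)⌋₊ < n → d n = 0) →
    (ZS T (fun s => PD d ⌊T ^ (1 - δ)⌋₊ s *
      (starRingEnd ℂ) (PD d ⌊T ^ (1 - δ)⌋₊ s))).re ≤
    cG T * Real.log T * ∑ n ∈ Finset.Icc 1 ⌊T ^ (1 - δ)⌋₊, d n ^ 2 / (n : ℝ) + 10

lemma re_mul_conj (z : ℂ) : (z * (starRingEnd ℂ) z).re = ‖z‖ ^ 2 := by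
  rw [Complex.mul_conj, Complex.normSq_eq_norm_sq, Complex.ofReal_re]

/-- `(x + y)^n ≤ (1+θ)^n x^n + (1+1/θ)^n y^n`. -/
lemma add_pow_le' (x y θ : ℝ) (n : ℕ) (hx : 0 ≤ x) (hy : 0 ≤ y) (hθ : 0 < θ) :
    (x + y) ^ n ≤ (1 + θ) ^ n * x ^ n + (1 + 1 / θ) ^ n * y ^ n := by
  rcases le_or_gt y (θ * x) with h | h
  · have h1 : (x + y) ^ n ≤ ((1 + θ) * x) ^ n := by
      apply pow_le_pow_left₀ (by linarith)
      linarith
    rw [mul_pow] at h1
    have h2 : 0 ≤ (1 + 1 / θ) ^ n * y ^ n := by positivity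
    linarith
  · have h1 : (x + y) ^ n ≤ ((1 + 1 / θ) * y) ^ n := by
      apply pow_le_pow_left₀ (by linarith)
      have h3 : x ≤ 1 / θ * y := by
        rw [one_div, inv_mul_eq_div, le_div_iff₀ hθ]
        linarith
      linarith
    rw [mul_pow] at h1
    have h2 : 0 ≤ (1 + θ) ^ n * x ^ n := by positivity
    linarith

/-- The bound for `BP^k`. -/
lemma bp_part (hz : ZfacStatement) (hZ : ZduStatement) (hLS : LSerStatement) (lam : ℝ) (k : ℕ)
    (hlam : 0 < lam) (hk : 1 ≤ k) (hkl : (k : ℝ) * lam < 1) :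
    ∀ᶠ T : ℝ in atTop, ∀ hf : (zset T).Finite,
      ∑ γ ∈ hf.toFinset, (mz γ : ℝ) * MS.wt T γ * ‖BP lam T (1 / 2 + γ * I)‖ ^ (2 * k) ≤
        cG T * Real.log T * ((k.factorial : ℝ) *
          (∑ n ∈ Finset.Icc 1 ⌊T ^ lam⌋₊, bb lam T n * bb lam T n / n) ^ k) + 10 := by
  have hk1 : (1 : ℝ) ≤ k := by exact_mod_cast hk
  have hkl0 : 0 < (k : ℝ) * lam := by positivity
  obtain ⟨T0, hT03, hT0⟩ := hZ (1 - k * lam) (by linarith) (by linarith)
  have h1 : ∀ᶠ T : ℝ in atTop, 0 < cG T * Real.log T := by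
    filter_upwards [ZN.cG_log_ge, eventually_gt_atTop (0 : ℝ)] with T h1 h2
    have : 0 < T / (2 * Real.sqrt Real.pi) := by positivity
    linarith
  have h2 : ∀ᶠ T : ℝ in atTop, 1 ≤ lam * Real.log T := by
    have := Real.tendsto_log_atTop.eventually (eventually_ge_atTop (1 / lam))
    filter_upwards [this] with T hT
    rw [div_le_iff₀ hlam] at hT
    linarith
  filter_upwards [h1, h2, eventually_ge_atTop T0, eventually_ge_atTop (k.factorial : ℝ),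
    eventually_gt_atTop (1 : ℝ)] with T hcG hL hTT0 hfac hT1 hf
  have hTpos : 0 < T := by linarith
  set M := ⌊T ^ (1 - (1 - k * lam))⌋₊ with hM
  have hbp0 : ∀ n, 0 ≤ bp lam T n := H59.bp_nonneg lam T (by linarith) hT1
  have hbp1 : ∀ n, bp lam T n ≤ 1 := bp_le_one lam T hlam hT1
  have hbpp : ∀ n, bp lam T n ≠ 0 → n.Prime := by
    intro n hn
    rw [H59.bp_apply] at hn
    by_contra h
    rw [if_neg h] at hn
    exact hn rfl
  have hsupp : ∀ n, M < n → (bp lam T ^ k) n = 0 := by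
    intro n hn
    by_contra h
    have h3 := H59.pow_supp' lam T (1 - k * lam) k hT1 (by linarith) n h
    exact absurd (Nat.le_floor h3) (by omega)
  have h3 := hT0 T hTT0 (bp lam T ^ k) (fun n => ⟨H97.pow_nonneg' _ hbp0 k n,
    (pow_le_factorial _ hbp0 hbp1 hbpp k n).trans hfac⟩) hsupp
  rw [P4.H70.ZS_re_eq_sum hf] at h3
  have h4 : ∀ s : ℂ, PD (bp lam T ^ k) M s = BP lam T s ^ k := by
    intro s
    rw [H59.BP_pow hLS lam T k M hsupp s]
    rfl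
  have h5 : ∑ γ ∈ hf.toFinset, (mz γ : ℝ) * MS.wt T γ * ‖BP lam T (1 / 2 + γ * I)‖ ^ (2 * k) =
      ∑ γ ∈ hf.toFinset, (mz γ : ℝ) * MS.wt T γ * (PD (bp lam T ^ k) M (1 / 2 + γ * I) *
        (starRingEnd ℂ) (PD (bp lam T ^ k) M (1 / 2 + γ * I))).re := by
    refine Finset.sum_congr rfl fun γ _ => ?_
    rw [re_mul_conj, h4, norm_pow, ← pow_mul, mul_comm 2 k]
  rw [h5]
  refine h3.trans ?_
  have h6 := H97.cmb (bp lam T) ⌊T ^ lam⌋₊ M k hbp0 (fun n hn => ⟨hbpp n hn,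
    Nat.le_floor (H59.bp_supp lam T n hn)⟩)
  have h7 : ∑ p ∈ Finset.Icc 1 ⌊T ^ lam⌋₊, bp lam T p ^ 2 / (p : ℝ) ≤
      ∑ n ∈ Finset.Icc 1 ⌊T ^ lam⌋₊, bb lam T n * bb lam T n / n := by
    refine Finset.sum_le_sum fun n _ => ?_
    apply div_le_div_of_nonneg_right _ (Nat.cast_nonneg n)
    have hb := bb_nonneg lam T (by linarith) hT1 n
    rw [H59.bp_apply]
    split_ifs
    · rw [sq]
    · rw [sq]
      nlinarith
  have h8 : 0 ≤ ∑ p ∈ Finset.Icc 1 ⌊T ^ lam⌋₊, bp lam T p ^ 2 / (p : ℝ) :=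
    Finset.sum_nonneg fun n _ => by positivity
  have h9 : ∑ n ∈ Finset.Icc 1 M, (bp lam T ^ k) n ^ 2 / (n : ℝ) ≤ (k.factorial : ℝ) *
      (∑ n ∈ Finset.Icc 1 ⌊T ^ lam⌋₊, bb lam T n * bb lam T n / n) ^ k :=
    h6.trans (by gcongr)
  gcongr

/-- The bound for the prime powers. -/
lemma bq_part (hz : ZfacStatement) (hZ : ZduStatement) (hP : PpwStatement) (lam : ℝ)
    (hlam : 0 < lam) (hlam1 : lam < 1) : ∃ C : ℝ, 0 < C ∧
    ∀ᶠ T : ℝ in atTop, ∀ hf : (zset T).Finite,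
      (∀ t : ℝ, ‖BB lam T (1 / 2 + t * I) - BP lam T (1 / 2 + t * I)‖ ≤ C) ∧
      ∑ γ ∈ hf.toFinset, (mz γ : ℝ) * MS.wt T γ *
        ‖BB lam T (1 / 2 + γ * I) - BP lam T (1 / 2 + γ * I)‖ ^ 2 ≤
        cG T * Real.log T * (C / (lam * Real.log T)) + 10 := by
  obtain ⟨C1, hC1, h1⟩ := bq_norm hP
  obtain ⟨C2, hC2, h2⟩ := bq_l2 hP
  obtain ⟨T0, hT03, hT0⟩ := hZ (1 - lam) (by linarith) (by linarith)
  refine ⟨max C1 C2, lt_max_of_lt_left hC1, ?_⟩
  have e1 : ∀ᶠ T : ℝ in atTop, 0 < cG T * Real.log T := by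
    filter_upwards [ZN.cG_log_ge, eventually_gt_atTop (0 : ℝ)] with T h1 h2
    have : 0 < T / (2 * Real.sqrt Real.pi) := by positivity
    linarith
  have e2 : ∀ᶠ T : ℝ in atTop, 1 ≤ lam * Real.log T := by
    have := Real.tendsto_log_atTop.eventually (eventually_ge_atTop (1 / lam))
    filter_upwards [this] with T hT
    rw [div_le_iff₀ hlam] at hT
    linarith
  filter_upwards [e1, e2, eventually_ge_atTop T0, eventually_gt_atTop (1 : ℝ)]
    with T hcG hL hTT0 hT1 hf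
  have hTpos : 0 < T := by linarith
  have hlog : 0 < Real.log T := Real.log_pos hT1
  have hT3 : 3 ≤ T := by linarith
  have hlam' : 1 / Real.log T ≤ lam := by
    rw [div_le_iff₀ hlog]
    linarith
  have hdiff : ∀ s : ℂ, BB lam T s - BP lam T s = PD (bq lam T) ⌊T ^ lam⌋₊ s := by
    intro s
    rw [BB_split, add_sub_cancel_left]
  refine ⟨fun t => ?_, ?_⟩
  · rw [hdiff]
    exact (h1 T lam t hT3 hlam').trans (le_max_left _ _)
  · have hexp : (1 : ℝ) - (1 - lam) = lam := by ring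
    have h3 := hT0 T hTT0 (bq lam T) (fun n => ⟨bq_nonneg lam T (by linarith) hT1 n,
      (bq_le_one lam T hlam hT1 n).trans (by linarith)⟩)
    rw [hexp] at h3
    have h4 := h3 (bq_supp' lam T)
    rw [P4.H70.ZS_re_eq_sum hf] at h4
    have h5 : ∑ γ ∈ hf.toFinset, (mz γ : ℝ) * MS.wt T γ *
        ‖BB lam T (1 / 2 + γ * I) - BP lam T (1 / 2 + γ * I)‖ ^ 2 =
      ∑ γ ∈ hf.toFinset, (mz γ : ℝ) * MS.wt T γ * (PD (bq lam T) ⌊T ^ lam⌋₊ (1 / 2 + γ * I) *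
        (starRingEnd ℂ) (PD (bq lam T) ⌊T ^ lam⌋₊ (1 / 2 + γ * I))).re := by
      refine Finset.sum_congr rfl fun γ _ => ?_
      rw [re_mul_conj, hdiff]
    rw [h5]
    refine h4.trans ?_
    have h6 := h2 T lam hT3 hlam hlam'
    have h7 : C2 / (lam * Real.log T) ≤ max C1 C2 / (lam * Real.log T) := by
      gcongr
      exact le_max_right _ _
    have h8 := h6.trans h7
    gcongr

/-- MOMB: the moments of `B` over the zeros. -/
theorem momB (hz : ZfacStatement) (hZ : ZduStatement) (hLS : LSerStatement) (hP : PpwStatement)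
    (hPr : PrimeSumStatement) (lam : ℝ) (k : ℕ)
    (hlam : 0 < lam) (hk : 1 ≤ k) (hkl : (k : ℝ) * lam < 1) (η : ℝ) (hη : 0 < η) :
    ∀ᶠ T : ℝ in atTop, ∑ᶠ γ ∈ zset T, (mz γ : ℝ) * MS.wt T γ *
        ‖BB lam T (1 / 2 + γ * I)‖ ^ (2 * k) ≤
      ((k.factorial : ℝ) / 12 ^ k + η) * (cG T * Real.log T) := by
  have hk1 : (1 : ℝ) ≤ k := by exact_mod_cast hk
  have hlam1 : lam < 1 := by nlinarith
  obtain ⟨C, hC, hq⟩ := bq_part hz hZ hP lam hlam hlam1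
  -- the choice of theta
  obtain ⟨θ, hθ, hθ'⟩ : ∃ θ : ℝ, 0 < θ ∧
      (1 + θ) ^ (2 * k) * ((k.factorial : ℝ) / 12 ^ k) < (k.factorial : ℝ) / 12 ^ k + η := by
    have hc : Tendsto (fun θ : ℝ => (1 + θ) ^ (2 * k) * ((k.factorial : ℝ) / 12 ^ k)) (𝓝[>] 0)
        (𝓝 ((1 + 0) ^ (2 * k) * ((k.factorial : ℝ) / 12 ^ k))) := by
      apply Tendsto.mono_left _ nhdsWithin_le_nhds
      apply Continuous.tendsto
      fun_prop
    have h1 : (1 + 0 : ℝ) ^ (2 * k) * ((k.factorial : ℝ) / 12 ^ k) <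
        (k.factorial : ℝ) / 12 ^ k + η := by
      rw [add_zero, one_pow, one_mul]; linarith
    have h2 := (hc.eventually (gt_mem_nhds h1)).and self_mem_nhdsWithin
    obtain ⟨θ, h3, h4⟩ := h2.exists
    exact ⟨θ, h4, h3⟩
  set A1 : ℝ := (1 + θ) ^ (2 * k) with hA1
  set A2 : ℝ := (1 + 1 / θ) ^ (2 * k) * C ^ (2 * k - 2) with hA2
  have hA10 : 0 < A1 := by positivity
  have hA20 : 0 < A2 := by positivity
  -- the limit
  set g : ℝ → ℝ := fun T => A1 * ((k.factorial : ℝ) *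
      (∑ n ∈ Finset.Icc 1 ⌊T ^ lam⌋₊, bb lam T n * bb lam T n / n) ^ k) +
      A2 * (C / (lam * Real.log T)) + (A1 * 10 + A2 * 10) / (cG T * Real.log T) with hg
  have hcGinf : Tendsto (fun T : ℝ => cG T * Real.log T) atTop atTop := by
    apply tendsto_atTop_mono' atTop ZN.cG_log_ge
    apply Filter.Tendsto.atTop_div_const (by positivity) tendsto_id
  have hgl : Tendsto g atTop (𝓝 (A1 * ((k.factorial : ℝ) * (1 / 12) ^ k) + A2 * 0 + 0)) := by
    apply Tendsto.add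
    · apply Tendsto.add
      · exact (((hPr.2 lam hlam hlam1).pow k).const_mul _).const_mul _
      · apply Tendsto.const_mul
        apply Tendsto.const_div_atTop
        exact Real.tendsto_log_atTop.const_mul_atTop hlam
    · exact Tendsto.const_div_atTop hcGinf _
  have hlim : A1 * ((k.factorial : ℝ) * (1 / 12) ^ k) + A2 * 0 + 0 <
      (k.factorial : ℝ) / 12 ^ k + η := by
    have : (k.factorial : ℝ) * (1 / 12) ^ k = (k.factorial : ℝ) / 12 ^ k := by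
      rw [one_div, inv_pow, div_eq_mul_inv]
    rw [this]
    linarith
  filter_upwards [hgl.eventually (gt_mem_nhds hlim), bp_part hz hZ hLS lam k hlam hk hkl, hq,
    hcGinf.eventually (eventually_gt_atTop 0)] with T hgT hbp hqT hcG
  have hf : (zset T).Finite := hz.2.2.2.2.2.2 T
  obtain ⟨hq1, hq2⟩ := hqT hf
  have hp := hbp hf
  rw [finsum_mem_eq_finite_toFinset_sum _ hf]
  have hwt : ∀ γ : ℝ, 0 ≤ (mz γ : ℝ) * MS.wt T γ := fun γ =>
    mul_nonneg (Nat.cast_nonneg _) (Real.exp_pos _).le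
  have h1 : ∀ γ ∈ hf.toFinset, (mz γ : ℝ) * MS.wt T γ * ‖BB lam T (1 / 2 + γ * I)‖ ^ (2 * k) ≤
      A1 * ((mz γ : ℝ) * MS.wt T γ * ‖BP lam T (1 / 2 + γ * I)‖ ^ (2 * k)) +
      A2 * ((mz γ : ℝ) * MS.wt T γ *
        ‖BB lam T (1 / 2 + γ * I) - BP lam T (1 / 2 + γ * I)‖ ^ 2) := by
    intro γ _
    set x := ‖BP lam T (1 / 2 + γ * I)‖ with hx
    set y := ‖BB lam T (1 / 2 + γ * I) - BP lam T (1 / 2 + γ * I)‖ with hy
    have hx0 : 0 ≤ x := norm_nonneg _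
    have hy0 : 0 ≤ y := norm_nonneg _
    have hxy : ‖BB lam T (1 / 2 + γ * I)‖ ≤ x + y := by
      calc ‖BB lam T (1 / 2 + γ * I)‖ = ‖BP lam T (1 / 2 + γ * I) +
            (BB lam T (1 / 2 + γ * I) - BP lam T (1 / 2 + γ * I))‖ := by congr 1; ring
        _ ≤ x + y := norm_add_le _ _
    have h2 : ‖BB lam T (1 / 2 + γ * I)‖ ^ (2 * k) ≤ A1 * x ^ (2 * k) + A2 * y ^ 2 := by
      refine (pow_le_pow_left₀ (norm_nonneg _) hxy _).trans
        ((add_pow_le' x y θ (2 * k) hx0 hy0 hθ).trans ?_)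
      have h3 : y ^ (2 * k) ≤ C ^ (2 * k - 2) * y ^ 2 := by
        have h4 : y ^ (2 * k) = y ^ (2 * k - 2) * y ^ 2 := by
          rw [← pow_add]
          congr 1
          omega
        rw [h4]
        have : y ≤ C := hq1 γ
        gcongr
      have h5 : (1 + 1 / θ) ^ (2 * k) * y ^ (2 * k) ≤
          (1 + 1 / θ) ^ (2 * k) * (C ^ (2 * k - 2) * y ^ 2) := by gcongr
      have h6 : (1 + 1 / θ) ^ (2 * k) * (C ^ (2 * k - 2) * y ^ 2) = A2 * y ^ 2 := by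
        rw [hA2]; ring
      linarith
    have h3 := mul_le_mul_of_nonneg_left h2 (hwt γ)
    calc _ ≤ _ := h3
      _ = _ := by ring
  refine (Finset.sum_le_sum h1).trans ?_
  rw [Finset.sum_add_distrib, ← Finset.mul_sum, ← Finset.mul_sum]
  have h2 := mul_le_mul_of_nonneg_left hp hA10.le
  have h3 := mul_le_mul_of_nonneg_left hq2 hA20.le
  have h4 := mul_le_mul_of_nonneg_right hgT.le hcG.le
  have h5 : g T * (cG T * Real.log T) = A1 * (cG T * Real.log T * ((k.factorial : ℝ) *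
      (∑ n ∈ Finset.Icc 1 ⌊T ^ lam⌋₊, bb lam T n * bb lam T n / n) ^ k) + 10) +
      A2 * (cG T * Real.log T * (C / (lam * Real.log T)) + 10) := by
    simp only [hg]
    rw [add_mul, add_mul, div_mul_cancel₀ _ hcG.ne']
    ring
  linarith

end Pool.Agent.Lib.MP_6bc78b_nt.MS.P5.HM
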