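import Pool.Agent.Lib.MP_6bc78b_nt.MS.P5.HM.Zdu

/-! Project MS, Part V, chapter HM: the prime part and the prime power part of `BB`. -/

set_option autoImplicit false

open Complex Filter Topology MeasureTheory ArithmeticFunction

namespace Pool.Agent.Lib.MP_6bc78b_nt.MS.P5.HM

open Pool.Agent.Lib.MP_6bc78b_nt.MS Pool.Agent.Lib.MP_6bc78b_nt.MS.P1
open Pool.Agent.Lib.MP_6bc78b_nt.MS.P5

/-- `bb` restricted to the proper prime powers. -/
noncomputable def bq (lam T : ℝ) : ArithmeticFunction ℝ :=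
  ⟨fun n => if n.Prime then 0 else bb lam T n, by simp⟩

lemma bq_apply (lam T : ℝ) (n : ℕ) : bq lam T n = if n.Prime then 0 else bb lam T n := rfl

lemma bb_split (lam T : ℝ) (n : ℕ) : bb lam T n = bp lam T n + bq lam T n := by
  rw [bq_apply, H59.bp_apply]
  split_ifs <;> ring

lemma bb_supp (lam T : ℝ) (n : ℕ) (h : bb lam T n ≠ 0) : (n : ℝ) ≤ T ^ lam := by
  rw [H59.bb_apply] at h
  unfold bbf at h
  by_contra h2
  rw [if_neg h2] at h
  exact h rfl

lemma bb_supp' (lam T : ℝ) (n : ℕ) (h : ⌊T ^ lam⌋₊ < n) : bb lam T n = 0 := by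
  by_contra h1
  exact absurd (Nat.le_floor (bb_supp lam T n h1)) (by omega)

lemma bp_supp' (lam T : ℝ) (n : ℕ) (h : ⌊T ^ lam⌋₊ < n) : bp lam T n = 0 := by
  rw [H59.bp_apply, bb_supp' lam T n h]
  simp

lemma bq_supp' (lam T : ℝ) (n : ℕ) (h : ⌊T ^ lam⌋₊ < n) : bq lam T n = 0 := by
  rw [bq_apply, bb_supp' lam T n h]
  simp

lemma bb_nonneg (lam T : ℝ) (hL : 0 < lam * Real.log T) (hT : 1 < T) (n : ℕ) :
    0 ≤ bb lam T n := H59.bb_nonneg lam T hL hT n

lemma bb_le_one (lam T : ℝ) (hlam : 0 < lam) (hT : 1 < T) (n : ℕ) : bb lam T n ≤ 1 :=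
  (le_abs_self _).trans (ZBB.abs_bb_le lam T hlam hT n)

lemma bp_le_one (lam T : ℝ) (hlam : 0 < lam) (hT : 1 < T) (n : ℕ) : bp lam T n ≤ 1 := by
  rw [H59.bp_apply]
  split_ifs
  · exact bb_le_one lam T hlam hT n
  · exact zero_le_one

lemma bq_nonneg (lam T : ℝ) (hL : 0 < lam * Real.log T) (hT : 1 < T) (n : ℕ) :
    0 ≤ bq lam T n := by
  rw [bq_apply]
  split_ifs
  · exact le_rfl
  · exact bb_nonneg lam T hL hT n

lemma bq_le_one (lam T : ℝ) (hlam : 0 < lam) (hT : 1 < T) (n : ℕ) : bq lam T n ≤ 1 := by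
  rw [bq_apply]
  split_ifs
  · exact zero_le_one
  · exact bb_le_one lam T hlam hT n

lemma PD_extend (d : ArithmeticFunction ℝ) (M N : ℕ) (hMN : N ≤ M) (h : ∀ n, N < n → d n = 0)
    (s : ℂ) : PD d M s = PD d N s := by
  unfold PD
  symm
  apply Finset.sum_subset (Finset.Icc_subset_Icc_right hMN)
  intro n hn hn'
  rw [Finset.mem_Icc] at hn hn'
  rw [h n (by omega)]
  simp

lemma BP_eq (lam T : ℝ) (s : ℂ) : BP lam T s = PD (bp lam T) ⌊T ^ lam⌋₊ s := rfl

lemma BB_eq (lam T : ℝ) (s : ℂ) : BB lam T s = PD (bb lam T) ⌊T ^ lam⌋₊ s := rfl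

lemma BB_split (lam T : ℝ) (s : ℂ) :
    BB lam T s = BP lam T s + PD (bq lam T) ⌊T ^ lam⌋₊ s := by
  rw [BB_eq, BP_eq]
  unfold PD
  rw [← Finset.sum_add_distrib]
  refine Finset.sum_congr rfl fun n _ => ?_
  rw [bb_split lam T n]
  push_cast
  ring

/-- The pointwise bound at `1/2 + it`. -/
lemma bq_norm (hP : PpwStatement) : ∃ C : ℝ, 0 < C ∧ ∀ T lam t : ℝ, 3 ≤ T →
    1 / Real.log T ≤ lam → ‖PD (bq lam T) ⌊T ^ lam⌋₊ (1 / 2 + t * I)‖ ≤ C := by
  obtain ⟨C, hC, h⟩ := hP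
  refine ⟨C, hC, fun T lam t hT hlam => ?_⟩
  have h1 := h T lam t hT hlam
  rwa [BB_split, add_sub_cancel_left] at h1

/-- The `l^1` norm. -/
lemma bq_l1 (hP : PpwStatement) : ∃ C : ℝ, 0 < C ∧ ∀ T lam : ℝ, 3 ≤ T →
    1 / Real.log T ≤ lam → ∑ n ∈ Finset.Icc 1 ⌊T ^ lam⌋₊, bq lam T n / Real.sqrt n ≤ C := by
  obtain ⟨C, hC, h⟩ := bq_norm hP
  refine ⟨C, hC, fun T lam hT hlam => ?_⟩
  have h1 := h T lam 0 hT hlam
  have h2 : PD (bq lam T) ⌊T ^ lam⌋₊ (1 / 2 + ((0 : ℝ) : ℂ) * I) =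
      ((∑ n ∈ Finset.Icc 1 ⌊T ^ lam⌋₊, bq lam T n / Real.sqrt n : ℝ) : ℂ) := by
    unfold PD
    rw [Complex.ofReal_sum]
    refine Finset.sum_congr rfl fun n hn => ?_
    rw [Finset.mem_Icc] at hn
    have hn1 : (0 : ℝ) < n := by exact_mod_cast hn.1
    have h3 : (-(1 / 2 + ((0 : ℝ) : ℂ) * I)) = (((-(1 / 2) : ℝ)) : ℂ) := by push_cast; ring
    have h4 : ((n : ℕ) : ℂ) = (((n : ℕ) : ℝ) : ℂ) := by push_cast; rfl
    rw [h3, h4, ← Complex.ofReal_cpow hn1.le, ← Complex.ofReal_mul, Real.rpow_neg hn1.le,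
      ← Real.sqrt_eq_rpow, div_eq_mul_inv]
  rw [h2, Complex.norm_real, Real.norm_eq_abs] at h1
  exact (le_abs_self _).trans h1

/-- `∑ bq(n)^2/n = O(1/L)`. -/
lemma bq_l2 (hP : PpwStatement) : ∃ C : ℝ, 0 < C ∧ ∀ T lam : ℝ, 3 ≤ T → 0 < lam →
    1 / Real.log T ≤ lam → ∑ n ∈ Finset.Icc 1 ⌊T ^ lam⌋₊, bq lam T n ^ 2 / (n : ℝ) ≤
      C / (lam * Real.log T) := by
  obtain ⟨C, hC, h⟩ := bq_l1 hP
  refine ⟨C, hC, fun T lam hT hlam0 hlam => ?_⟩
  have hlog : 0 < Real.log T := Real.log_pos (by linarith)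
  have hL : 0 < lam * Real.log T := by positivity
  have h1 : ∀ n ∈ Finset.Icc 1 ⌊T ^ lam⌋₊, bq lam T n ^ 2 / (n : ℝ) ≤
      (1 / (lam * Real.log T)) * (bq lam T n / Real.sqrt n) := by
    intro n hn
    rw [Finset.mem_Icc] at hn
    have hn1 : (1 : ℝ) ≤ n := by exact_mod_cast hn.1
    have hn0 : (0 : ℝ) < n := by linarith
    have hs0 : 0 < Real.sqrt n := Real.sqrt_pos.2 hn0
    have hs : Real.sqrt n * Real.sqrt n = n := Real.mul_self_sqrt hn0.le
    have hq0 := bq_nonneg lam T hL (by linarith) n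
    have h2 : bq lam T n / Real.sqrt n ≤ 1 / (lam * Real.log T) := by
      have h3 : bq lam T n ≤ Real.log n / (lam * Real.log T) := by
        rw [bq_apply]
        split_ifs
        · exact div_nonneg (Real.log_nonneg hn1) hL.le
        · rw [H59.bb_apply]
          unfold bbf
          split_ifs with h4
          · have h5 : ArithmeticFunction.vonMangoldt n ≤ Real.log n :=
              ArithmeticFunction.vonMangoldt_le_log
            have h6 : 0 ≤ ArithmeticFunction.vonMangoldt n :=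
              ArithmeticFunction.vonMangoldt_nonneg
            have h7 : 0 ≤ Real.log n / (lam * Real.log T) :=
              div_nonneg (Real.log_nonneg hn1) hL.le
            apply div_le_div_of_nonneg_right _ hL.le
            nlinarith
          · exact div_nonneg (Real.log_nonneg hn1) hL.le
      have h4 : Real.log n ≤ Real.sqrt n := by
        have h5 : Real.log n = 2 * Real.log (Real.sqrt n) := by
          rw [Real.log_sqrt hn0.le]; ring
        have h6 : Real.log (Real.sqrt n) ≤ Real.sqrt n / Real.exp 1 := by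
          have := Real.add_one_le_exp (Real.log (Real.sqrt n) - 1)
          rw [Real.exp_sub, Real.exp_log hs0] at this
          linarith
        have h7 : Real.sqrt n / Real.exp 1 ≤ Real.sqrt n / 2 := by
          apply div_le_div_of_nonneg_left hs0.le (by norm_num)
          have := Real.add_one_le_exp (1 : ℝ)
          linarith
        linarith
      rw [div_le_div_iff₀ hs0 hL]
      rw [le_div_iff₀ hL] at h3
      linarith
    have h3 : bq lam T n ^ 2 / (n : ℝ) = (bq lam T n / Real.sqrt n) * (bq lam T n / Real.sqrt n) := by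
      rw [div_mul_div_comm, hs, sq]
    rw [h3]
    exact mul_le_mul_of_nonneg_right h2 (by positivity)
  refine (Finset.sum_le_sum h1).trans ?_
  rw [← Finset.mul_sum]
  calc (1 / (lam * Real.log T)) * ∑ n ∈ Finset.Icc 1 ⌊T ^ lam⌋₊, bq lam T n / Real.sqrt n
      ≤ (1 / (lam * Real.log T)) * C := by
        apply mul_le_mul_of_nonneg_left (h T lam hT hlam) (by positivity)
    _ = C / (lam * Real.log T) := by ring

/-- `(f^k)(n) ≤ k!` for `0 ≤ f ≤ 1` supported on the primes. -/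
lemma pow_le_factorial (f : ArithmeticFunction ℝ) (h0 : ∀ n, 0 ≤ f n) (h1 : ∀ n, f n ≤ 1)
    (hp : ∀ n, f n ≠ 0 → n.Prime) (k n : ℕ) : (f ^ k) n ≤ (k.factorial : ℝ) := by
  have h2 := H97.sq_le f h0 hp k n
  have hg0 : ∀ n, 0 ≤ (f.pmul f) n := fun n => by
    rw [ArithmeticFunction.pmul_apply]
    exact mul_nonneg (h0 n) (h0 n)
  have h3 : ∀ k n : ℕ, ((f.pmul f) ^ k) n ≤ (f ^ k) n := by
    intro k
    induction k with
    | zero => intro n; rw [pow_zero, pow_zero]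
    | succ k ih =>
      intro n
      rw [pow_succ', pow_succ', ArithmeticFunction.mul_apply, ArithmeticFunction.mul_apply]
      refine Finset.sum_le_sum fun x _ => ?_
      have h4 : (f.pmul f) x.1 ≤ f x.1 := by
        rw [ArithmeticFunction.pmul_apply]
        have := h0 x.1
        have := h1 x.1
        nlinarith
      exact mul_le_mul h4 (ih x.2) (H97.pow_nonneg' _ hg0 k _) (h0 _)
  have h4 := H97.pow_nonneg' f h0 k n
  have h5 := h3 k n
  have h6 : (0 : ℝ) < (k.factorial : ℝ) := by positivity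
  by_contra h7
  push Not at h7
  have h8 : (f ^ k) n ^ 2 ≤ (k.factorial : ℝ) * (f ^ k) n := h2.trans (by gcongr)
  have h9 : (k.factorial : ℝ) * (f ^ k) n < (f ^ k) n * (f ^ k) n :=
    mul_lt_mul_of_pos_right h7 (by linarith)
  nlinarith

end Pool.Agent.Lib.MP_6bc78b_nt.MS.P5.HM
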