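import Pool.Agent.Lib.MP_6bc78b_nt.MS.P5.H59.Momk

/-! Project MS, Part V, chapter HM: the mean square of a Dirichlet polynomial with nonnegative
coefficients over the zeros, sharp constant, uniform in the coefficients. -/

set_option autoImplicit false

open Complex Filter Topology MeasureTheory ArithmeticFunction

namespace Pool.Agent.Lib.MP_6bc78b_nt.MS.P5.HM

open Pool.Agent.Lib.MP_6bc78b_nt.MS Pool.Agent.Lib.MP_6bc78b_nt.MS.P1
open Pool.Agent.Lib.MP_6bc78b_nt.MS.P5

/-- Dirichlet polynomial. -/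
noncomputable def PD (d : ArithmeticFunction ℝ) (M : ℕ) (s : ℂ) : ℂ :=
  ∑ n ∈ Finset.Icc 1 M, (d n : ℂ) * (n : ℂ) ^ (-s)

lemma PD_conj (d : ArithmeticFunction ℝ) (M : ℕ) (s : ℂ) :
    PD d M ((starRingEnd ℂ) s) = (starRingEnd ℂ) (PD d M s) := by
  unfold PD
  rw [map_sum]
  refine Finset.sum_congr rfl (fun n hn => ?_)
  rw [Finset.mem_Icc] at hn
  rw [map_mul, Complex.conj_ofReal]
  congr 1
  have hn' : (n : ℂ) ≠ 0 := by exact_mod_cast (by omega : n ≠ 0)
  rw [Complex.cpow_def_of_ne_zero hn', Complex.cpow_def_of_ne_zero hn', ← Complex.exp_conj,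
    map_mul, map_neg, ← Complex.natCast_log, Complex.conj_ofReal]

lemma PD_diff (d : ArithmeticFunction ℝ) (M : ℕ) : Differentiable ℂ (PD d M) := by
  unfold PD
  apply Differentiable.fun_sum
  intro n hn
  rw [Finset.mem_Icc] at hn
  have hn' : (n : ℂ) ≠ 0 := by exact_mod_cast (by omega : n ≠ 0)
  apply Differentiable.const_mul
  intro s
  exact (DifferentiableAt.const_cpow (by fun_prop) (Or.inl hn'))

lemma PD_norm (d : ArithmeticFunction ℝ) (M : ℕ) (T : ℝ) (hT : 1 ≤ T) (hM : (M : ℝ) ≤ T)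
    (hd : ∀ n, 0 ≤ d n ∧ d n ≤ T) (s : ℂ) (hs : -1 ≤ s.re) : ‖PD d M s‖ ≤ T ^ (3 : ℝ) := by
  unfold PD
  have h1 : ∀ n ∈ Finset.Icc 1 M, ‖((d n : ℝ) : ℂ) * (n : ℂ) ^ (-s)‖ ≤ T * T := by
    intro n hn
    rw [Finset.mem_Icc] at hn
    have hn1 : (1 : ℝ) ≤ n := by exact_mod_cast hn.1
    have hn2 : (n : ℝ) ≤ M := by exact_mod_cast hn.2
    rw [norm_mul, Complex.norm_real, Real.norm_eq_abs, abs_of_nonneg (hd n).1,
      Complex.norm_natCast_cpow_of_pos (by omega)]
    have h2 : (n : ℝ) ^ (-s).re ≤ T := by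
      calc (n : ℝ) ^ (-s).re ≤ (n : ℝ) ^ (1 : ℝ) :=
            Real.rpow_le_rpow_of_exponent_le hn1 (by rw [Complex.neg_re]; linarith)
        _ = n := Real.rpow_one _
        _ ≤ T := by linarith
    have := (hd n).1
    have := (hd n).2
    gcongr
  refine (norm_sum_le _ _).trans ((Finset.sum_le_sum h1).trans ?_)
  rw [Finset.sum_const, Nat.card_Icc, nsmul_eq_mul]
  have h3 : ((M + 1 - 1 : ℕ) : ℝ) ≤ T := by simpa using hM
  have h4 : T ^ (3 : ℝ) = T * (T * T) := by
    rw [show (3 : ℝ) = ((3 : ℕ) : ℝ) by norm_num, Real.rpow_natCast]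
    ring
  rw [h4]
  gcongr

/-- The part with `ζ'/ζ`. -/
lemma zeta_part (hLS : LSerStatement) (c T δ A : ℝ) (d : ArithmeticFunction ℝ) (hc1 : 1 < c)
    (hcG : 0 < cG T) (hT : 1 < T)
    (hET : ∀ a b : ℕ → ℂ,
      Summable (fun n : ℕ => ‖a n‖ * (n : ℝ) ^ (-c)) →
      (∑' n : ℕ, ‖a n‖ * (n : ℝ) ^ (-c)) ≤ T ^ A → (∀ k, ‖b k‖ ≤ T ^ A) →
      ‖VI c (fun s => LSeries a s *
        (∑ k ∈ Finset.Icc 1 ⌊T ^ (1 - δ)⌋₊, b k * (k : ℂ) ^ (-(1 - s))) * WW T s) -
        (cG T : ℂ) * ∑ k ∈ Finset.Icc 1 ⌊T ^ (1 - δ)⌋₊, a k * b k / k‖ ≤ 1 / T)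
    (hd0 : ∀ n, ⌊T ^ (1 - δ)⌋₊ < n → d n = 0)
    (hA1 : ASum c (La * d)) (hA2 : AN c (La * d) ≤ T ^ A)
    (hA3 : ∀ n, 0 ≤ d n ∧ d n ≤ T ^ A) :
    (VI c (fun s => logDeriv riemannZeta s * (PD d ⌊T ^ (1 - δ)⌋₊ s *
      PD d ⌊T ^ (1 - δ)⌋₊ (1 - s)) * WW T s)).re ≤ 1 / T := by
  set M := ⌊T ^ (1 - δ)⌋₊ with hM
  have hnorm : ∀ n : ℕ, ‖(((La * d) n : ℝ) : ℂ)‖ * (n : ℝ) ^ (-c) =
      |(La * d) n| * (n : ℝ) ^ (-c) := by
    intro n
    rw [Complex.norm_real, Real.norm_eq_abs]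
  have he := hET (fun n => (((La * d) n : ℝ) : ℂ))
    (fun j => ((d j : ℝ) : ℂ))
    (by simp_rw [hnorm]; exact hA1) (by simp_rw [hnorm]; exact hA2) (fun j => by
      rw [Complex.norm_real, Real.norm_eq_abs, abs_of_nonneg (hA3 j).1]
      exact (hA3 j).2)
  have hre : ∀ t : ℝ, (c + t * I : ℂ).re = c := by intro t; simp
  obtain ⟨hALa, -, -⟩ := hLS.2.2.2.1 c hc1
  have hAd : ASum c d := H59.ASum_fin d M hd0 c
  obtain ⟨-, -, h6⟩ := hLS.2.2.2.2.1 c La d hALa hAd
  have h1 : VI c (fun s => LSeries (fun n => (((La * d) n : ℝ) : ℂ)) s *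
      (∑ j ∈ Finset.Icc 1 M, ((d j : ℝ) : ℂ) * (j : ℂ) ^ (-(1 - s))) * WW T s) =
      - VI c (fun s => logDeriv riemannZeta s * (PD d M s * PD d M (1 - s)) * WW T s) := by
    rw [← ZBB.VI_neg]
    apply ZBB.VI_congr
    intro t
    have h2 : LSeries (fun n => (((La * d) n : ℝ) : ℂ)) (c + t * I) =
        (-logDeriv riemannZeta (c + t * I)) * PD d M (c + t * I) := by
      have h3 := h6 (c + t * I) (hre t)
      rw [hLS.1 _ (by rw [hre]; exact hc1), H59.LS_fin d M hd0] at h3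
      exact h3
    rw [h2]
    show _ * PD d M (1 - (c + t * I)) * _ = _
    ring
  rw [h1] at he
  set V := VI c (fun s => logDeriv riemannZeta s * (PD d M s * PD d M (1 - s)) * WW T s) with hV
  have h2 : (cG T : ℂ) * ∑ j ∈ Finset.Icc 1 M, (((La * d) j : ℝ) : ℂ) *
      ((d j : ℝ) : ℂ) / (j : ℂ) =
      ((cG T * ∑ j ∈ Finset.Icc 1 M, (La * d) j * d j / j : ℝ) : ℂ) := by
    push_cast
    rfl
  rw [h2] at he
  have h0 : 0 ≤ cG T * ∑ j ∈ Finset.Icc 1 M, (La * d) j * d j / j := by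
    apply mul_nonneg hcG.le
    apply Finset.sum_nonneg
    intro j _
    apply div_nonneg _ (Nat.cast_nonneg _)
    apply mul_nonneg _ (hA3 j).1
    rw [ArithmeticFunction.mul_apply]
    apply Finset.sum_nonneg
    intro p _
    exact mul_nonneg ArithmeticFunction.vonMangoldt_nonneg (hA3 _).1
  have h3 := Complex.abs_re_le_norm (-V - ((cG T * ∑ j ∈ Finset.Icc 1 M,
        (La * d) j * d j / j : ℝ) : ℂ))
  rw [Complex.sub_re, Complex.neg_re, Complex.ofReal_re] at h3
  have h4 := neg_le_abs (-V.re - cG T * ∑ j ∈ Finset.Icc 1 M, (La * d) j * d j / j)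
  linarith

lemma AN_d_le (c T : ℝ) (d : ArithmeticFunction ℝ) (M : ℕ) (hc1 : 1 < c) (hT : 1 ≤ T)
    (hM : (M : ℝ) ≤ T) (hd : ∀ n, 0 ≤ d n ∧ d n ≤ T) (hd0 : ∀ n, M < n → d n = 0) :
    AN c d ≤ T * T := by
  unfold AN
  rw [tsum_eq_sum (s := Finset.Icc 1 M)]
  · have h1 : ∀ n ∈ Finset.Icc 1 M, |d n| * (n : ℝ) ^ (-c) ≤ T := by
      intro n hn
      rw [Finset.mem_Icc] at hn
      have hn1 : (1 : ℝ) ≤ n := by exact_mod_cast hn.1
      rw [abs_of_nonneg (hd n).1]
      have h2 : (n : ℝ) ^ (-c) ≤ 1 := Real.rpow_le_one_of_one_le_of_nonpos hn1 (by linarith)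
      have := (hd n).1
      have := (hd n).2
      have : 0 ≤ (n : ℝ) ^ (-c) := by positivity
      nlinarith
    refine (Finset.sum_le_sum h1).trans ?_
    rw [Finset.sum_const, Nat.card_Icc, nsmul_eq_mul]
    have h3 : ((M + 1 - 1 : ℕ) : ℝ) ≤ T := by simpa using hM
    gcongr
  · intro n hn
    rcases Nat.eq_zero_or_pos n with h0 | h0
    · rw [h0]; simp
    · rw [hd0 n (by
        by_contra h1
        exact hn (Finset.mem_Icc.2 ⟨h0, by omega⟩))]
      simp

/-- ZDU: the mean square over the zeros. -/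
theorem zdu (hZ : ZeroSumStatement) (hTl : TailStatement) (hE : Edge1Statement)
    (hcho : OmAsympStatement) (hLS : LSerStatement) (hM : MvfStatement) (hMov : MovStatement)
    (hchi : ChiStatement) (hDD : DDStatement) :
    ∀ δ : ℝ, 0 < δ → δ < 1 → ∃ T0 : ℝ, 3 < T0 ∧ ∀ T : ℝ, T0 ≤ T →
      ∀ d : ArithmeticFunction ℝ, (∀ n, 0 ≤ d n ∧ d n ≤ T) →
        (∀ n, ⌊T ^ (1 - δ)⌋₊ < n → d n = 0) →
        (ZS T (fun s => PD d ⌊T ^ (1 - δ)⌋₊ s *
          (starRingEnd ℂ) (PD d ⌊T ^ (1 - δ)⌋₊ s))).re ≤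
        cG T * Real.log T * ∑ n ∈ Finset.Icc 1 ⌊T ^ (1 - δ)⌋₊, d n ^ 2 / (n : ℝ) + 10 := by
  classical
  intro δ hδ0 hδ1
  obtain ⟨c, hc1, hc2⟩ : ∃ c : ℝ, 1 < c ∧ c < 3 / 2 := ⟨5 / 4, by norm_num, by norm_num⟩
  set K : ℝ := max (AN c La) 1 with hK
  have hK1 : 1 ≤ K := le_max_right _ _
  have hKLa : AN c La ≤ K := le_max_left _ _
  set A : ℝ := 8 with hA
  obtain ⟨C, hC0, hC⟩ := hcho
  obtain ⟨TM, hTM3, hMM⟩ := hM δ A hδ0
  have hev := ((hZ A c hc1 hc2).and ((hTl A c (by linarith) (by linarith)).and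
    ((hTl A (1 / 2) (by norm_num) (by norm_num)).and
    ((hE (1 - δ) c A (by linarith) (by linarith) hc1 hc2).and
    ((hMov A c hc1 hc2).and hDD.2.2.1)))))
  obtain ⟨T1, hT1⟩ := Filter.eventually_atTop.1 hev
  refine ⟨max TM (max T1 (max 20 (max (2 * C) K))), ?_, ?_⟩
  · have : (20 : ℝ) ≤ max TM (max T1 (max 20 (max (2 * C) K))) :=
      (le_max_left _ _).trans ((le_max_right _ _).trans (le_max_right _ _))
    linarith
  intro T hT d hd hd0
  have hTM : TM ≤ T := (le_max_left _ _).trans hT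
  have hTT1 : T1 ≤ T := ((le_max_left _ _).trans (le_max_right _ _)).trans hT
  have hT20 : 20 ≤ T :=
    ((le_max_left _ _).trans ((le_max_right _ _).trans (le_max_right _ _))).trans hT
  have hTC : 2 * C ≤ T := ((le_max_left _ _).trans ((le_max_right _ _).trans
    ((le_max_right _ _).trans (le_max_right _ _)))).trans hT
  have hTK : K ≤ T := ((le_max_right _ _).trans ((le_max_right _ _).trans
    ((le_max_right _ _).trans (le_max_right _ _)))).trans hT
  obtain ⟨hZT, hTT, hTH, hET, hMovT, hDT⟩ := hT1 T hTT1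
  have hT0 : 0 < T := by linarith
  have hT1' : 1 < T := by linarith
  have hlog : 0 < Real.log T := Real.log_pos hT1'
  have hcG : 0 < cG T := hDT.2.2.1
  have hTinv : 1 / T ≤ 1 := by rw [div_le_one hT0]; linarith
  have hpow : ∀ a b : ℝ, a ≤ b → T ^ a ≤ T ^ b :=
    fun a b h => Real.rpow_le_rpow_of_exponent_le hT1'.le h
  set M := ⌊T ^ (1 - δ)⌋₊ with hMdef
  have hMT : (M : ℝ) ≤ T := by
    have h1 : (M : ℝ) ≤ T ^ (1 - δ) := Nat.floor_le (by positivity)
    have h2 := hpow (1 - δ) 1 (by linarith)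
    rw [Real.rpow_one] at h2
    linarith
  obtain ⟨hALa, -, -⟩ := hLS.2.2.2.1 c hc1
  have hAd : ASum c d := H59.ASum_fin d M hd0 c
  obtain ⟨hA1, hA2', -⟩ := hLS.2.2.2.2.1 c La d hALa hAd
  have hANd := AN_d_le c T d M hc1 hT1'.le hMT hd hd0
  have hANd0 : 0 ≤ AN c d := tsum_nonneg (fun n => by positivity)
  have hA2 : AN c (La * d) ≤ T ^ A := by
    refine hA2'.trans ?_
    calc AN c La * AN c d ≤ T * (T * T) := by
          gcongr
          exact hKLa.trans hTK
      _ = T ^ (3 : ℝ) := by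
          rw [show (3 : ℝ) = ((3 : ℕ) : ℝ) by norm_num, Real.rpow_natCast]
          ring
      _ ≤ T ^ A := hpow _ _ (by rw [hA]; norm_num)
  have hTA1 : T ≤ T ^ A := by
    have := hpow 1 A (by rw [hA]; norm_num)
    rwa [Real.rpow_one] at this
  have hA3 : ∀ n, 0 ≤ d n ∧ d n ≤ T ^ A := fun n => ⟨(hd n).1, (hd n).2.trans hTA1⟩
  set F : ℂ → ℂ := fun s => PD d M s * PD d M (1 - s) with hF
  have hBd : Differentiable ℂ (PD d M) := PD_diff d M
  have hFd : Differentiable ℂ F := by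
    apply hBd.mul
    exact (hBd.comp ((differentiable_const _).sub differentiable_id))
  have hFconj : ∀ s : ℂ, (starRingEnd ℂ) (F (1 - (starRingEnd ℂ) s)) = F s := by
    intro s
    simp only [hF]
    rw [map_mul, ← PD_conj, ← PD_conj, map_sub, map_one, Complex.conj_conj,
      map_sub, map_one, map_sub, map_one, Complex.conj_conj, mul_comm]
    congr 2
    ring
  have hFhalf : ∀ t : ℝ, F (1 / 2 + t * I) = ((‖PD d M (1 / 2 + t * I)‖ ^ 2 : ℝ) : ℂ) := by
    intro t
    simp only [hF]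
    have h1 : PD d M (1 - (1 / 2 + t * I)) = (starRingEnd ℂ) (PD d M (1 / 2 + t * I)) := by
      rw [← PD_conj]
      congr 1
      simp only [map_add, map_mul, Complex.conj_ofReal, Complex.conj_I, map_div₀, map_one,
        map_ofNat]
      ring
    rw [h1, Complex.mul_conj, Complex.normSq_eq_norm_sq]
  have hZS : ZS T (fun s => PD d M s * (starRingEnd ℂ) (PD d M s)) = ZS T F := by
    unfold ZS
    apply finsum_mem_congr rfl
    intro γ _
    rw [hFhalf γ]
    show _ * _ * (PD d M (1 / 2 + γ * I) *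
      (starRingEnd ℂ) (PD d M (1 / 2 + γ * I))) = _
    rw [Complex.mul_conj, Complex.normSq_eq_norm_sq]
  rw [hZS]
  have hFb : ∀ s : ℂ, -1 ≤ s.re → s.re ≤ 2 → ‖F s‖ ≤ T ^ (6 : ℝ) := by
    intro s hs1 hs2
    simp only [hF]
    rw [norm_mul]
    have h1 := PD_norm d M T hT1'.le hMT hd s hs1
    have h2 := PD_norm d M T hT1'.le hMT hd (1 - s) (by
      rw [Complex.sub_re, Complex.one_re]; linarith)
    have h6 : T ^ (6 : ℝ) = T ^ (3 : ℝ) * T ^ (3 : ℝ) := by
      rw [← Real.rpow_add hT0]; norm_num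
    rw [h6]
    gcongr
  have hz := hZT F hFd.differentiableOn (fun s hs => (hFb s (by linarith [hs.1.1])
    (by linarith [hs.1.2])).trans (hpow _ _ (by rw [hA]; norm_num)))
  simp_rw [hFconj] at hz
  have hmv := hMovT F hFd.differentiableOn (fun s hs => (hFb s (by linarith [hs.1.1])
    (by linarith [hs.1.2])).trans (hpow _ _ (by rw [hA]; norm_num)))
  have hline : Continuous (fun t : ℝ => (c + t * I : ℂ)) := by fun_prop
  have hre : ∀ t : ℝ, (c + t * I : ℂ).re = c := by intro t; simp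
  have hWc : Continuous (WW T) := by unfold WW; fun_prop
  have hzeta : ∀ t : ℝ, ‖logDeriv riemannZeta (c + t * I)‖ ≤ T := by
    intro t
    have h1 := ZBB.norm_LS_le La c hALa (c + t * I) (hre t)
    rw [hLS.1 _ (by rw [hre]; exact hc1), norm_neg] at h1
    exact h1.trans (hKLa.trans hTK)
  have h1t : ∀ t : ℝ, (1 : ℝ) ≤ (1 + |t|) ^ A := by
    intro t
    exact Real.one_le_rpow (by linarith [abs_nonneg t]) (by rw [hA]; norm_num)
  have hTA0 : 0 ≤ T ^ A := by positivity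
  obtain ⟨i1, t1⟩ := hTT (fun s => logDeriv riemannZeta s * F s) (by
    exact ((ZBB.meas_zeta c hc1).mul (hFd.continuous.comp hline).measurable).aestronglyMeasurable)
    (fun t => by
      rw [norm_mul]
      have h1 : ‖logDeriv riemannZeta (c + t * I)‖ * ‖F (c + t * I)‖ ≤ T ^ A := by
        calc ‖logDeriv riemannZeta (c + t * I)‖ * ‖F (c + t * I)‖ ≤ T * T ^ (6 : ℝ) := by
              gcongr
              · exact hzeta t
              · exact hFb _ (by rw [hre]; linarith) (by rw [hre]; linarith)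
          _ = T ^ (1 + 6 : ℝ) := by rw [Real.rpow_add hT0, Real.rpow_one]
          _ ≤ T ^ A := hpow _ _ (by rw [hA]; norm_num)
      exact h1.trans (le_mul_of_one_le_right hTA0 (h1t t)))
  obtain ⟨i2, -⟩ := hTH F (by
    have hl : Continuous (fun t : ℝ => (((1 / 2 : ℝ) : ℂ) + t * I : ℂ)) := by fun_prop
    exact (hFd.continuous.comp hl).aestronglyMeasurable) (fun t => by
      have h1 : ‖F (((1 / 2 : ℝ) : ℂ) + t * I)‖ ≤ T ^ A :=
        (hFb _ (by simp; norm_num) (by simp; norm_num)).trans (hpow _ _ (by rw [hA]; norm_num))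
      exact h1.trans (le_mul_of_one_le_right hTA0 (h1t t)))
  have hzp := zeta_part hLS c T δ A d hc1 hcG hT1' hET hd0 hA1 hA2 hA3
  set V1 := VF c T (fun s => logDeriv riemannZeta s * F s * WW T s) with hV1
  set V3 := VF c T (fun s => om s * F s * WW T s) with hV3
  have hV1re : V1.re ≤ 2 := by
    have h1 := Complex.abs_re_le_norm (VI c (fun s => (logDeriv riemannZeta s * F s) * WW T s) - V1)
    have h2 := h1.trans t1
    rw [Complex.sub_re] at h2
    have h3 := neg_le_abs ((VI c (fun s => (logDeriv riemannZeta s * F s) * WW T s)).re - V1.re)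
    have h4 : (VI c (fun s => (logDeriv riemannZeta s * F s) * WW T s)).re ≤ 1 / T := hzp
    linarith
  have hV2 : VF c T (fun s => (om s + logDeriv riemannZeta s) * F s * WW T s) = V3 + V1 := by
    rw [hV3, hV1]
    unfold VF
    rw [← mul_add, ← intervalIntegral.integral_add]
    · congr 1
      apply intervalIntegral.integral_congr
      intro t _
      simp only
      ring
    · apply ContinuousOn.intervalIntegrable
      intro t ht
      rw [Set.uIcc_of_le (by linarith)] at ht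
      have h1 : DifferentiableAt ℂ om (c + t * I) :=
        H51.om_diff hchi _ (by rw [hre]; linarith) (by
          simp only [Complex.add_im, Complex.ofReal_im, Complex.mul_im, Complex.ofReal_re,
            Complex.I_im, Complex.I_re, mul_one, mul_zero, add_zero, zero_add]
          have := ht.1
          intro h
          linarith)
      have h2 : ContinuousAt (fun t : ℝ => om (c + t * I)) t :=
        ContinuousAt.comp (f := fun t : ℝ => (c + t * I : ℂ)) (g := om)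
          h1.continuousAt hline.continuousAt
      exact ((h2.mul (hFd.continuous.comp hline).continuousAt).mul
        (hWc.comp hline).continuousAt).continuousWithinAt
    · exact i1.intervalIntegrable
  rw [hV2] at hz
  have hQ := hMM T hTM (fun n => d n) hA3
  set S := ∑ n ∈ Finset.Icc 1 M, d n ^ 2 / (n : ℝ) with hS
  have hQ' : (1 / (2 * Real.pi)) * ∫ t : ℝ, ‖PD d M (1 / 2 + t * I)‖ ^ 2 * MS.wt T t ≤
      cG T * S + 1 / T := hQ
  have hom := H59.om_line hchi C T hT1' (fun t h1 h2 => H59.om_re_le C T hT20 hTC hC t h1 h2)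
    (PD d M) hBd.continuous F hFhalf i2 hFd.continuous _ hQ'
  have hV3re : V3.re ≤ 1 + Real.log T * (cG T * S + 1 / T) := by
    have h1 := Complex.abs_re_le_norm (V3 - VF (1 / 2) T (fun s => om s * F s * WW T s))
    have h2 := h1.trans hmv
    rw [Complex.sub_re] at h2
    have h3 := le_abs_self (V3.re - (VF (1 / 2) T (fun s => om s * F s * WW T s)).re)
    linarith
  have hfin : (ZS T F).re ≤ 1 + V1.re + (V3.re + V1.re) := by
    have h1 := Complex.abs_re_le_norm (ZS T F - (V1 + (starRingEnd ℂ) (V3 + V1)))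
    have h2 := h1.trans hz
    rw [Complex.sub_re, Complex.add_re, Complex.conj_re, Complex.add_re] at h2
    have h3 := le_abs_self ((ZS T F).re - (V1.re + (V3.re + V1.re)))
    linarith
  have hlT : Real.log T * (1 / T) ≤ 1 := by
    rw [mul_one_div, div_le_one hT0]
    have := Real.log_le_sub_one_of_pos hT0
    linarith
  have hexp : Real.log T * (cG T * S + 1 / T) = cG T * Real.log T * S + Real.log T * (1 / T) := by
    ring
  rw [hexp] at hV3re
  linarith

end Pool.Agent.Lib.MP_6bc78b_nt.MS.P5.HM
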